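import Mathlib
import Pool.Agent.Q77.Semi.Plane

/-! Orbits of a holomorphic self-map of a bounded open set, whose image has a neighbourhood of fixed
size inside the set, are attracted by sinks. -/

set_option autoImplicit false

open Topology Filter Metric Set

namespace Pool.Agent.Q77.Rand

open Pool.Agent.Q77.Semi

theorem sink {V : Set ℂ} (hV : IsOpen V) {F : ℂ → ℂ} (hd : Differentiable ℂ F) {M r : ℝ}
    (hr : 0 < r) (hM0 : 0 < M) (hM : ∀ z ∈ V, ‖z‖ ≤ M) (hball : ∀ z ∈ V, ball (F z) r ⊆ V)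
    {x : ℂ} (hx : x ∈ V) :
    ∃ (m p : ℕ) (z₀ : ℂ), 0 < p ∧ F^[p] z₀ = z₀ ∧
      Tendsto (fun k : ℕ => (F^[p])^[k] (F^[m] x)) atTop (𝓝 z₀) ∧
      ∀ j : ℕ, ‖deriv (F^[p]) (F^[j] z₀)‖ < 1 := by
  have hdV : DifferentiableOn ℂ F V := hd.differentiableOn
  have hF : ∀ z ∈ V, F z ∈ V := fun z hz => hball z hz (mem_ball_self hr)
  set δ : ℝ := r / (4 * M) with hδd
  have hδ : 0 < δ := by positivity
  have hδr : δ * (2 * M) < r := by
    have : δ * (2 * M) = r / 2 := by rw [hδd]; field_simp; ring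
    rw [this]; linarith
  obtain ⟨n₀, hn₀⟩ : ∃ n₀ : ℕ, ∀ n ≥ n₀, M / (r / 2) / (1 + δ) ^ n ≤ 1 / 4 := by
    have h1 : Tendsto (fun n : ℕ => M / (r / 2) / (1 + δ) ^ n) atTop (𝓝 0) :=
      Tendsto.div_atTop tendsto_const_nhds (tendsto_pow_atTop_atTop_of_one_lt (by linarith))
    have h2 := h1.eventually (ge_mem_nhds (show (0 : ℝ) < 1 / 4 by norm_num))
    exact eventually_atTop.1 h2
  set y : ℕ → ℂ := fun j => F^[j * (n₀ + 1) + 1] x with hy
  have hyV : ∀ j, y j ∈ V := fun j => iter_mem hF _ hx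
  obtain ⟨a, -, φ, hφ, hlim⟩ := (isCompact_closedBall (0 : ℂ) M).tendsto_subseq (x := y)
    (fun j => by rw [mem_closedBall_zero_iff]; exact hM _ (hyV j))
  obtain ⟨k, hk⟩ := (Metric.tendsto_atTop.1 hlim (r / 16) (by positivity))
  have hk1 := hk k le_rfl
  have hk2 := hk (k + 1) (Nat.le_succ k)
  have hφk : φ k < φ (k + 1) := hφ (Nat.lt_succ_self k)
  set m := φ k * (n₀ + 1) + 1 with hm
  set p := (φ (k + 1) - φ k) * (n₀ + 1) with hp
  have hmp : p + m = φ (k + 1) * (n₀ + 1) + 1 := by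
    rw [hp, hm, Nat.sub_mul]
    have : φ k * (n₀ + 1) ≤ φ (k + 1) * (n₀ + 1) := Nat.mul_le_mul_right _ hφk.le
    omega
  have hpn : n₀ ≤ p := by
    have h1 : 1 ≤ φ (k + 1) - φ k := by omega
    calc n₀ ≤ 1 * (n₀ + 1) := by omega
      _ ≤ p := Nat.mul_le_mul_right _ h1
  have hp0 : 0 < p := by
    have h1 : 1 ≤ φ (k + 1) - φ k := by omega
    exact Nat.mul_pos h1 (Nat.succ_pos _)
  have hc : F^[m] x = F (F^[φ k * (n₀ + 1)] x) := by
    rw [hm, Function.iterate_succ_apply']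
  have hcV : ball (F^[m] x) r ⊆ V := by rw [hc]; exact hball _ (iter_mem hF _ hx)
  have hder0 : ∀ z, closedBall z (r / 2) ⊆ V → ‖deriv (F^[p]) z‖ ≤ 1 / 4 := fun z hz =>
    (deriv_iter hV hdV hr hδ hM0 hM hball hδr p (by positivity) hz).trans (hn₀ p hpn)
  have hsub : ∀ z ∈ closedBall (F^[m] x) (r / 4), closedBall z (r / 2) ⊆ V := by
    intro z hz
    refine Subset.trans ?_ hcV
    intro w hw
    rw [mem_closedBall] at hz hw
    rw [mem_ball]
    calc dist w (F^[m] x) ≤ dist w z + dist z (F^[m] x) := dist_triangle _ _ _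
      _ < r := by linarith
  have hlip : ∀ z ∈ closedBall (F^[m] x) (r / 4), ∀ w ∈ closedBall (F^[m] x) (r / 4),
      ‖F^[p] z - F^[p] w‖ ≤ 1 / 4 * ‖z - w‖ := by
    intro z hz w hw
    refine (convex_closedBall _ _).norm_image_sub_le_of_norm_deriv_le (𝕜 := ℂ)
      (fun u hu => ?_) (fun u hu => hder0 u (hsub u hu)) hw hz
    exact iter_diff hV hdV hF p (hsub u hu (mem_closedBall_self (by positivity)))
  have hcc : dist (F^[p] (F^[m] x)) (F^[m] x) < r / 8 := by
    rw [← Function.iterate_add_apply, hmp]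
    have e1 : F^[φ (k + 1) * (n₀ + 1) + 1] x = y (φ (k + 1)) := rfl
    have e2 : F^[m] x = y (φ k) := rfl
    rw [e1, e2]
    calc dist (y (φ (k + 1))) (y (φ k)) ≤ dist (y (φ (k + 1))) a + dist a (y (φ k)) :=
          dist_triangle _ _ _
      _ < r / 8 := by
          have h1 : dist (y (φ (k + 1))) a < r / 16 := hk2
          have h2 : dist a (y (φ k)) < r / 16 := by rw [dist_comm]; exact hk1
          linarith
  set c := F^[m] x with hcd
  have hmaps : MapsTo (F^[p]) (closedBall c (r / 4)) (closedBall c (r / 4)) := by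
    intro z hz
    have h1 := hlip z hz c (mem_closedBall_self (by positivity))
    rw [mem_closedBall] at hz ⊢
    rw [← dist_eq_norm, ← dist_eq_norm] at h1
    calc dist (F^[p] z) c ≤ dist (F^[p] z) (F^[p] c) + dist (F^[p] c) c := dist_triangle _ _ _
      _ ≤ 1 / 4 * (r / 4) + r / 8 := by
          have : 1 / 4 * dist z c ≤ 1 / 4 * (r / 4) := by gcongr
          linarith
      _ ≤ r / 4 := by linarith
  have hctr : ContractingWith (1 / 4 : NNReal) (hmaps.restrict (F^[p]) _ _) := by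
    refine ⟨by norm_num [← NNReal.coe_lt_coe], ?_⟩
    refine LipschitzWith.of_dist_le_mul ?_
    rintro ⟨u, hu⟩ ⟨v, hv⟩
    have h1 := hlip u hu v hv
    rw [← dist_eq_norm, ← dist_eq_norm] at h1
    show dist (F^[p] u) (F^[p] v) ≤ ((1 / 4 : NNReal) : ℝ) * dist u v
    have e : ((1 / 4 : NNReal) : ℝ) = 1 / 4 := by norm_num
    rw [e]; exact h1
  obtain ⟨z', hz'1, hz'2, hz'3, -⟩ := ContractingWith.exists_fixedPoint'
    isClosed_closedBall.isComplete hmaps hctr (mem_closedBall_self (by positivity : 0 ≤ r / 4))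
    (edist_ne_top _ _)
  refine ⟨m, p, z', hp0, hz'2.eq, hz'3, fun j => ?_⟩
  have hz'V : z' ∈ V := hsub z' hz'1 (mem_closedBall_self (by positivity))
  have hj : closedBall (F^[j] z') (r / 2) ⊆ V := by
    have e : F^[j] z' = F (F^[j + p - 1] z') := by
      rw [← Function.iterate_succ_apply' F]
      have : (j + p - 1).succ = j + p := by omega
      rw [this, Function.iterate_add_apply, hz'2.eq]
    rw [e]
    exact (closedBall_subset_ball (by linarith)).trans (hball _ (iter_mem hF _ hz'V))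
  exact (hder0 _ hj).trans_lt (by norm_num)

end Pool.Agent.Q77.Rand
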