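import Mathlib
import Pool.Agent.Q77.Rand.Plane2

/-! Compositions of the maps `f + t`: trapping set, critical points, attraction. -/

set_option autoImplicit false

open Topology Filter Metric Set

namespace Pool.Agent.Q77.Rand

/-- the orbit escapes or is attracted by a sink -/
def Good (Φ : ℂ → ℂ) (z : ℂ) : Prop :=
  Tendsto (fun k : ℕ => ‖Φ^[k] z‖) atTop atTop ∨
    ∃ n : ℕ, 0 < n ∧ ∃ x : ℂ, Φ^[n] x = x ∧ ‖deriv (Φ^[n]) x‖ < 1 ∧
      Tendsto (fun k : ℕ => Φ^[n * k] z) atTop (𝓝 x)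

/-- the orbit of a point under the maps `f + t` -/
def tr (f : ℂ → ℂ) (l : List ℂ) (z : ℂ) : ℂ := l.foldl (fun z t => f z + t) z

variable {f : ℂ → ℂ} {U : Set ℂ}

theorem tr_cons (f : ℂ → ℂ) (t : ℂ) (l : List ℂ) (z : ℂ) : tr f (t :: l) z = tr f l (f z + t) := rfl

theorem tr_append (f : ℂ → ℂ) (l l' : List ℂ) (z : ℂ) : tr f (l ++ l') z = tr f l' (tr f l z) := by
  unfold tr; rw [List.foldl_append]

theorem tr_snoc (f : ℂ → ℂ) (l : List ℂ) (t z : ℂ) : tr f (l ++ [t]) z = f (tr f l z) + t := by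
  rw [tr_append]; rfl

theorem tr_diff (hf : Differentiable ℂ f) (l : List ℂ) : Differentiable ℂ (tr f l) := by
  induction l using List.reverseRecOn with
  | nil => exact differentiable_id
  | append_singleton l t ih =>
    have : tr f (l ++ [t]) = fun z => f (tr f l z) + t := by funext z; rw [tr_snoc]
    rw [this]
    exact (hf.comp ih).add_const _

/-- the points which are reached -/
def Reach (f : ℂ → ℂ) (U : Set ℂ) (x : ℂ) : Set ℂ :=
  {y | ∃ l : List ℂ, l ≠ [] ∧ (∀ t ∈ l, t ∈ U) ∧ tr f l x = y}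

theorem Reach_open (hU : IsOpen U) (x : ℂ) : IsOpen (Reach f U x) := by
  rw [isOpen_iff_mem_nhds]
  rintro y ⟨l, hl, hlU, rfl⟩
  obtain ⟨l', t, rfl⟩ := (List.eq_nil_or_concat' l).resolve_left hl
  rw [tr_snoc]
  set w := f (tr f l' x) with hw
  have h1 : {y | y - w ∈ U} ∈ 𝓝 (w + t) := by
    refine (hU.preimage (continuous_id.sub continuous_const)).mem_nhds ?_
    show w + t - w ∈ U
    rw [add_sub_cancel_left]
    exact hlU t (by simp)
  refine mem_of_superset h1 ?_
  intro y hy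
  refine ⟨l' ++ [y - w], by simp, ?_, ?_⟩
  · intro s hs
    rw [List.mem_append, List.mem_singleton] at hs
    rcases hs with hs | rfl
    · exact hlU s (List.mem_append_left _ hs)
    · exact hy
  · rw [tr_snoc, ← hw]; ring

theorem Reach_step {x y : ℂ} (hy : y ∈ Reach f U x) {t : ℂ} (ht : t ∈ U) :
    f y + t ∈ Reach f U x := by
  obtain ⟨l, hl, hlU, rfl⟩ := hy
  refine ⟨l ++ [t], by simp, ?_, by rw [tr_snoc]⟩
  intro s hs
  rw [List.mem_append, List.mem_singleton] at hs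
  rcases hs with hs | rfl
  · exact hlU s hs
  · exact ht

/-- the bounded part of the trapping set -/
def TT (f : ℂ → ℂ) (U : Set ℂ) (R : ℝ) : Set ℂ :=
  ⋃ x ∈ {x : ℂ | Disjoint (Reach f U x) {z | R < ‖z‖}}, Reach f U x

/-- the trapping set -/
def WW (f : ℂ → ℂ) (U : Set ℂ) (R : ℝ) : Set ℂ := {z | R < ‖z‖} ∪ TT f U R

theorem TT_open (hU : IsOpen U) (R : ℝ) : IsOpen (TT f U R) :=
  isOpen_biUnion fun x _ => Reach_open hU x

theorem WW_open (hU : IsOpen U) (R : ℝ) : IsOpen (WW f U R) :=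
  (isOpen_lt continuous_const continuous_norm).union (TT_open hU R)

theorem TT_step {R : ℝ} {z : ℂ} (hz : z ∈ TT f U R) {t : ℂ} (ht : t ∈ U) :
    f z + t ∈ TT f U R := by
  unfold TT at hz ⊢
  rw [mem_iUnion₂] at hz ⊢
  obtain ⟨x, hx, hz⟩ := hz
  exact ⟨x, hx, Reach_step hz ht⟩

theorem TT_le {R : ℝ} {z : ℂ} (hz : z ∈ TT f U R) : ‖z‖ ≤ R := by
  unfold TT at hz
  rw [mem_iUnion₂] at hz
  obtain ⟨x, hx, hz⟩ := hz
  by_contra h
  exact Set.disjoint_left.1 hx hz (not_le.1 h)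

theorem WW_step {R : ℝ} (hR : 0 < R) (hR2 : ∀ z : ℂ, R ≤ ‖z‖ → ∀ t ∈ U, 2 * ‖z‖ ≤ ‖f z + t‖)
    {z : ℂ} (hz : z ∈ WW f U R) {t : ℂ} (ht : t ∈ U) : f z + t ∈ WW f U R := by
  rcases hz with hz | hz
  · left
    have h1 : R < ‖z‖ := hz
    have h2 := hR2 z h1.le t ht
    show R < ‖f z + t‖
    linarith
  · exact Or.inr (TT_step hz ht)

theorem WW_tr {R : ℝ} (hR : 0 < R) (hR2 : ∀ z : ℂ, R ≤ ‖z‖ → ∀ t ∈ U, 2 * ‖z‖ ≤ ‖f z + t‖)
    (l : List ℂ) (hl : ∀ t ∈ l, t ∈ U) {z : ℂ} (hz : z ∈ WW f U R) : tr f l z ∈ WW f U R := by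
  induction l generalizing z with
  | nil => exact hz
  | cons t l ih =>
    rw [tr_cons]
    exact ih (fun s hs => hl s (List.mem_cons_of_mem _ hs)) (WW_step hR hR2 hz (hl t (by simp)))

theorem steer (hUn : U.Nonempty) (R : ℝ) (x : ℂ) :
    ∃ l : List ℂ, (∀ t ∈ l, t ∈ U) ∧ tr f l x ∈ WW f U R := by
  by_cases hx : Disjoint (Reach f U x) {z | R < ‖z‖}
  · obtain ⟨t, ht⟩ := hUn
    refine ⟨[t], by simpa using ht, Or.inr ?_⟩
    unfold TT
    rw [mem_iUnion₂]
    exact ⟨x, hx, ⟨[t], by simp, by simpa using ht, rfl⟩⟩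
  · rw [Set.not_disjoint_iff] at hx
    obtain ⟨y, ⟨l, -, h2, h3⟩, hy⟩ := hx
    exact ⟨l, h2, Or.inl (h3 ▸ hy)⟩

theorem tr_double {R : ℝ} (hR : 0 < R) (hR2 : ∀ z : ℂ, R ≤ ‖z‖ → ∀ t ∈ U, 2 * ‖z‖ ≤ ‖f z + t‖)
    (l : List ℂ) (hl : ∀ t ∈ l, t ∈ U) (hl0 : l ≠ []) {z : ℂ} (hz : R ≤ ‖z‖) :
    2 * ‖z‖ ≤ ‖tr f l z‖ := by
  have key : ∀ (l : List ℂ), (∀ t ∈ l, t ∈ U) → ∀ z : ℂ, R ≤ ‖z‖ → ‖z‖ ≤ ‖tr f l z‖ := by
    intro l
    induction l with
    | nil => intro _ z _; exact le_rfl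
    | cons t l ih =>
      intro hl z hz
      rw [tr_cons]
      have h1 := hR2 z hz t (hl t (by simp))
      have h2 := ih (fun s hs => hl s (List.mem_cons_of_mem _ hs)) (f z + t) (by linarith)
      linarith
  obtain ⟨t, l', rfl⟩ := List.exists_cons_of_ne_nil hl0
  rw [tr_cons]
  have h1 := hR2 z hz t (hl t (by simp))
  have h2 := key l' (fun s hs => hl s (List.mem_cons_of_mem _ hs)) (f z + t) (by linarith)
  linarith

/-- points whose orbit enters the trapping set are good -/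
theorem good_of_mem (hf : Differentiable ℂ f) (hU : IsOpen U) {R : ℝ} (hR : 0 < R)
    (hR2 : ∀ z : ℂ, R ≤ ‖z‖ → ∀ t ∈ U, 2 * ‖z‖ ≤ ‖f z + t‖)
    (l : List ℂ) (hl : ∀ t ∈ l, t ∈ U) (hl0 : l ≠ []) {z : ℂ} {j : ℕ}
    (hz : (tr f l)^[j] z ∈ WW f U R) : Good (tr f l) z := by
  rcases hz with hz | hz
  · left
    have hz' : R < ‖(tr f l)^[j] z‖ := hz
    have h1 : ∀ k : ℕ, 2 ^ k * ‖(tr f l)^[j] z‖ ≤ ‖(tr f l)^[k + j] z‖ := by
      intro k
      induction k with
      | zero => simp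
      | succ k ih =>
        have h2 : R ≤ ‖(tr f l)^[k + j] z‖ := by
          refine hz'.le.trans (le_trans ?_ ih)
          have : (1 : ℝ) ≤ 2 ^ k := one_le_pow₀ (by norm_num)
          nlinarith [norm_nonneg ((tr f l)^[j] z)]
        have h3 := tr_double hR hR2 l hl hl0 h2
        have e : k + 1 + j = (k + j) + 1 := by ring
        rw [e, Function.iterate_succ_apply']
        calc 2 ^ (k + 1) * ‖(tr f l)^[j] z‖ = 2 * (2 ^ k * ‖(tr f l)^[j] z‖) := by ring
          _ ≤ 2 * ‖(tr f l)^[k + j] z‖ := by linarith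
          _ ≤ _ := h3
    rw [← tendsto_add_atTop_iff_nat j]
    have h2 : Tendsto (fun k : ℕ => (2 : ℝ) ^ k * ‖(tr f l)^[j] z‖) atTop atTop :=
      (tendsto_pow_atTop_atTop_of_one_lt (by norm_num)).atTop_mul_const (hR.trans hz')
    exact tendsto_atTop_mono h1 h2
  · right
    obtain ⟨l', t, rfl⟩ := (List.eq_nil_or_concat' l).resolve_left hl0
    have htU : t ∈ U := hl t (by simp)
    have hl' : ∀ s ∈ l', s ∈ U := fun s hs => hl s (List.mem_append_left _ hs)
    obtain ⟨r, hr, hrU⟩ := Metric.isOpen_iff.1 hU t htU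
    have hTl : ∀ (l : List ℂ), (∀ t ∈ l, t ∈ U) → ∀ w ∈ TT f U R, tr f l w ∈ TT f U R := by
      intro l
      induction l with
      | nil => intro _ w hw; exact hw
      | cons s l ih =>
        intro hl w hw
        rw [tr_cons]
        exact ih (fun s hs => hl s (List.mem_cons_of_mem _ hs)) _ (TT_step hw (hl s (by simp)))
    set Φ := tr f (l' ++ [t]) with hΦ
    have hball : ∀ w ∈ TT f U R, ball (Φ w) r ⊆ TT f U R := by
      intro w hw v hv
      rw [mem_ball, dist_eq_norm, hΦ, tr_snoc] at hv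
      have h1 := TT_step (hTl l' hl' w hw) (t := v - f (tr f l' w)) (hrU (by
        rw [mem_ball, dist_eq_norm]
        have : v - f (tr f l' w) - t = v - (f (tr f l' w) + t) := by ring
        rw [this]; exact hv))
      rwa [add_sub_cancel] at h1
    have hd : Differentiable ℂ Φ := tr_diff hf _
    obtain ⟨m, p, z₀, hp, hfix, hlim, hder⟩ := sink (TT_open hU R) hd hr hR
      (fun w hw => TT_le hw) hball hz
    -- go round the cycle
    rw [← Function.iterate_add_apply] at hlim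
    set s := m + j with hs
    have hsp : s + s * (p - 1) = p * s := by
      obtain ⟨q, rfl⟩ : ∃ q, p = q + 1 := ⟨p - 1, by omega⟩
      simp only [Nat.add_sub_cancel]
      ring
    refine ⟨p, hp, Φ^[s * (p - 1)] z₀, ?_, hder _, ?_⟩
    · rw [← Function.iterate_add_apply, add_comm, Function.iterate_add_apply, hfix]
    · have h1 := ((hd.continuous.iterate (s * (p - 1))).tendsto z₀).comp
        (hlim.comp (tendsto_sub_atTop_nat s))
      refine h1.congr' ?_
      filter_upwards [eventually_ge_atTop s] with k hk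
      simp only [Function.comp_apply]
      rw [← Function.iterate_mul, ← Function.iterate_add_apply, ← Function.iterate_add_apply]
      congr 2
      obtain ⟨i, rfl⟩ := Nat.exists_eq_add_of_le hk
      rw [Nat.add_sub_cancel_left, mul_add]
      omega

theorem deriv_tr (hf : Differentiable ℂ f) (l : List ℂ) (z : ℂ) (h : deriv (tr f l) z = 0) :
    ∃ i < l.length, deriv f (tr f (l.take i) z) = 0 := by
  induction l using List.reverseRecOn with
  | nil =>
    have : tr f [] = id := rfl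
    rw [this, deriv_id] at h
    exact absurd h one_ne_zero
  | append_singleton l t ih =>
    have e : tr f (l ++ [t]) = fun z => f (tr f l z) + t := by funext z; rw [tr_snoc]
    have h1 : deriv (tr f (l ++ [t])) z = deriv f (tr f l z) * deriv (tr f l) z := by
      rw [e, deriv_add_const]
      exact ((hf _).hasDerivAt.comp z ((tr_diff hf l) z).hasDerivAt).deriv
    rw [h1, mul_eq_zero] at h
    rcases h with h | h
    · refine ⟨l.length, by simp, ?_⟩
      rw [List.take_left]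
      exact h
    · obtain ⟨i, hi, h2⟩ := ih h
      refine ⟨i, by rw [List.length_append]; omega, ?_⟩
      rw [List.take_append_of_le_length hi.le]
      exact h2

/-- **Deterministic part.** If the critical points of `f`, starting at any time, are trapped after
one round, then all critical points of the composition are good. -/
theorem det (hf : Differentiable ℂ f) (hU : IsOpen U) {R : ℝ} (hR : 0 < R)
    (hR2 : ∀ z : ℂ, R ≤ ‖z‖ → ∀ t ∈ U, 2 * ‖z‖ ≤ ‖f z + t‖)
    (l : List ℂ) (hl : ∀ t ∈ l, t ∈ U)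
    (h : ∀ i < l.length, ∀ c, deriv f c = 0 → tr f (l.drop i ++ l.take i) c ∈ WW f U R) :
    ∀ c, deriv (tr f l) c = 0 → Good (tr f l) c := by
  intro c hc
  obtain ⟨i, hi, h1⟩ := deriv_tr hf l c hc
  have hl0 : l ≠ [] := by
    rintro rfl
    simp at hi
  have h2 := h i hi _ h1
  have hdrop : ∀ t ∈ l.drop i, t ∈ U := fun t ht => hl t (List.mem_of_mem_drop ht)
  have e1 : ∀ z, tr f l z = tr f (l.drop i) (tr f (l.take i) z) := by
    intro z
    rw [← tr_append, List.take_append_drop]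
  rw [tr_append, ← e1] at h2
  have h3 := WW_tr hR hR2 (l.drop i) hdrop h2
  rw [← e1] at h3
  exact good_of_mem hf hU hR hR2 l hl hl0 (j := 2) h3

end Pool.Agent.Q77.Rand
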