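import Mathlib
import Pool.Agent.Q77.Rand.Det

/-! The probability of not being trapped. -/

set_option autoImplicit false

open Topology Filter Metric Set MeasureTheory
open scoped ENNReal

namespace Pool.Agent.Q77.Rand

/-- the probability of not being trapped after `n` steps -/
noncomputable def un (f : ℂ → ℂ) (W : Set ℂ) (ν : Measure ℂ) : ℕ → ℂ → ℝ≥0∞
  | 0 => Wᶜ.indicator 1
  | n + 1 => fun x => ∫⁻ t, un f W ν n (f x + t) ∂ν

variable {f : ℂ → ℂ} {W U : Set ℂ} {ν : Measure ℂ}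

theorem un_meas [SFinite ν] (hf : Continuous f) (hW : MeasurableSet W) (n : ℕ) :
    Measurable (un f W ν n) := by
  induction n with
  | zero => exact measurable_one.indicator hW.compl
  | succ n ih =>
    have h1 : Measurable (fun q : ℂ × ℂ => un f W ν n (f q.1 + q.2)) :=
      ih.comp ((hf.comp continuous_fst).add continuous_snd).measurable
    exact h1.lintegral_prod_right'

theorem un_le_one [IsProbabilityMeasure ν] (n : ℕ) (x : ℂ) : un f W ν n x ≤ 1 := by
  induction n generalizing x with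
  | zero => exact Set.indicator_le_self' (fun _ _ => zero_le) x
  | succ n ih =>
    calc ∫⁻ t, un f W ν n (f x + t) ∂ν ≤ ∫⁻ _, 1 ∂ν := lintegral_mono fun t => ih _
      _ = 1 := by simp

theorem un_zero_of_mem (hνU : ν Uᶜ = 0) (hstep : ∀ z ∈ W, ∀ t ∈ U, f z + t ∈ W) (n : ℕ) {x : ℂ}
    (hx : x ∈ W) : un f W ν n x = 0 := by
  induction n generalizing x with
  | zero => exact Set.indicator_of_notMem (not_not.2 hx) _
  | succ n ih =>
    have h1 : ∀ᵐ t ∂ν, un f W ν n (f x + t) = 0 := by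
      have h2 : ∀ᵐ t ∂ν, t ∈ U := by
        rw [ae_iff]
        exact hνU
      filter_upwards [h2] with t ht
      exact ih (hstep x hx t ht)
    exact (lintegral_congr_ae h1).trans (by simp)

theorem un_anti [IsProbabilityMeasure ν] (hνU : ν Uᶜ = 0)
    (hstep : ∀ z ∈ W, ∀ t ∈ U, f z + t ∈ W) : Antitone (un f W ν) := by
  apply antitone_nat_of_succ_le
  intro n
  induction n with
  | zero =>
    intro x
    by_cases hx : x ∈ W
    · rw [un_zero_of_mem hνU hstep 1 hx]; exact zero_le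
    · have : un f W ν 0 x = 1 := Set.indicator_of_mem hx _
      rw [this]
      exact un_le_one 1 x
  | succ n ih =>
    intro x
    exact lintegral_mono fun t => ih _

/-- locally uniform probability of being trapped, from a steering word -/
theorem un_local [IsProbabilityMeasure ν] (hf : Continuous f) (hWo : IsOpen W) (hU : IsOpen U)
    (hνU : ν Uᶜ = 0) (hνo : ∀ V : Set ℂ, IsOpen V → V.Nonempty → V ⊆ U → ν V ≠ 0)
    (hstep : ∀ z ∈ W, ∀ t ∈ U, f z + t ∈ W) (l : List ℂ) (hl : ∀ t ∈ l, t ∈ U) {x : ℂ}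
    (hx : tr f l x ∈ W) :
    ∃ p : ℝ≥0∞, p ≠ 0 ∧ p ≤ 1 ∧ ∀ᶠ y in 𝓝 x, un f W ν l.length y ≤ 1 - p := by
  induction l generalizing x with
  | nil =>
    refine ⟨1, one_ne_zero, le_rfl, ?_⟩
    filter_upwards [hWo.mem_nhds hx] with y hy
    rw [un_zero_of_mem hνU hstep _ hy]
    exact zero_le
  | cons t l ih =>
    rw [tr_cons] at hx
    obtain ⟨p, hp0, hp1, hp⟩ := ih (fun s hs => hl s (List.mem_cons_of_mem _ hs)) hx
    -- a product neighbourhood
    have hcont : ContinuousAt (fun q : ℂ × ℂ => f q.1 + q.2) (x, t) :=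
      ((hf.comp continuous_fst).add continuous_snd).continuousAt
    have h1 : ∀ᶠ q : ℂ × ℂ in 𝓝 (x, t), un f W ν l.length (f q.1 + q.2) ≤ 1 - p :=
      hcont.eventually hp
    rw [nhds_prod_eq] at h1
    obtain ⟨A, hA, B, hB, hAB⟩ := Filter.eventually_prod_iff.1 h1
    obtain ⟨V, hVB, hVo, htV⟩ := _root_.mem_nhds_iff.1 hB
    set V' := V ∩ U with hV'
    have hV'o : IsOpen V' := hVo.inter hU
    have hV'ne : ν V' ≠ 0 := hνo V' hV'o ⟨t, htV, hl t (by simp)⟩ inter_subset_right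
    have hV'1 : ν V' ≤ 1 := prob_le_one
    refine ⟨p * ν V', mul_ne_zero hp0 hV'ne, mul_le_one' hp1 hV'1, ?_⟩
    filter_upwards [hA] with y hy
    have hbound : ∀ s, un f W ν l.length (f y + s) ≤
        V'.indicator (fun _ => 1 - p) s + V'ᶜ.indicator (fun _ => 1) s := by
      intro s
      by_cases hs : s ∈ V'
      · rw [Set.indicator_of_mem hs, Set.indicator_of_notMem (not_not.2 hs), add_zero]
        exact hAB hy (hVB hs.1)
      · rw [Set.indicator_of_notMem hs, Set.indicator_of_mem (show s ∈ V'ᶜ from hs), zero_add]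
        exact un_le_one _ _
    calc un f W ν (t :: l).length y = ∫⁻ s, un f W ν l.length (f y + s) ∂ν := rfl
      _ ≤ ∫⁻ s, (V'.indicator (fun _ => 1 - p) s + V'ᶜ.indicator (fun _ => 1) s) ∂ν :=
          lintegral_mono hbound
      _ = (1 - p) * ν V' + ν V'ᶜ := by
          rw [lintegral_add_left (measurable_const.indicator hV'o.measurableSet),
            lintegral_indicator hV'o.measurableSet, lintegral_indicator hV'o.measurableSet.compl]
          simp
      _ = 1 - p * ν V' := by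
          have hfin : ν V' ≠ ∞ := measure_ne_top _ _
          have hpfin : p ≠ ∞ := ne_top_of_le_ne_top ENNReal.one_ne_top hp1
          rw [prob_compl_eq_one_sub hV'o.measurableSet]
          have e1 : (1 - p) * ν V' = ν V' - p * ν V' := by
            rw [ENNReal.sub_mul (fun _ _ => hfin), one_mul]
          rw [e1]
          have h3 : p * ν V' ≤ ν V' := by
            calc p * ν V' ≤ 1 * ν V' := by gcongr
              _ = ν V' := one_mul _
          have h4 : p * ν V' ≠ ∞ := ENNReal.mul_ne_top hpfin hfin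
          refine ENNReal.eq_sub_of_add_eq h4 ?_
          rw [add_right_comm, tsub_add_cancel_of_le h3, add_tsub_cancel_of_le hV'1]

/-- **Uniform trapping.** -/
theorem un_unif [IsProbabilityMeasure ν] (hf : Continuous f) (hWo : IsOpen W) (hU : IsOpen U)
    (hνU : ν Uᶜ = 0) (hνo : ∀ V : Set ℂ, IsOpen V → V.Nonempty → V ⊆ U → ν V ≠ 0)
    (hstep : ∀ z ∈ W, ∀ t ∈ U, f z + t ∈ W) {R : ℝ} (hWR : ∀ z : ℂ, R < ‖z‖ → z ∈ W)
    (hst : ∀ x, ∃ l : List ℂ, (∀ t ∈ l, t ∈ U) ∧ tr f l x ∈ W) :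
    ∃ (ℓ : ℕ) (p : ℝ≥0∞), p ≠ 0 ∧ p ≤ 1 ∧ ∀ x, un f W ν ℓ x ≤ 1 - p := by
  choose l hlU hlW using hst
  choose p hp0 hp1 hp using fun x =>
    un_local (ν := ν) hf hWo hU hνU hνo hstep (l x) (hlU x) (hlW x)
  obtain ⟨t, -, ht⟩ := (isCompact_closedBall (0 : ℂ) R).elim_nhds_subcover
    (fun x => {y | un f W ν (l x).length y ≤ 1 - p x}) (fun x _ => hp x)
  have hanti := un_anti (f := f) (W := W) hνU hstep
  by_cases htn : t.Nonempty
  · refine ⟨t.sup fun x => (l x).length, t.inf' htn p, ?_, ?_, ?_⟩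
    · obtain ⟨y, hy, hye⟩ := t.exists_mem_eq_inf' htn p
      rw [hye]; exact hp0 y
    · obtain ⟨y, hy⟩ := htn
      exact (Finset.inf'_le p hy).trans (hp1 y)
    · intro x
      by_cases hx : R < ‖x‖
      · rw [un_zero_of_mem hνU hstep _ (hWR x hx)]; exact zero_le
      · have hx' : x ∈ closedBall (0 : ℂ) R := by
          rw [mem_closedBall_zero_iff]; exact not_lt.1 hx
        obtain ⟨y, hy, hxy⟩ := mem_iUnion₂.1 (ht hx')
        have h1 : un f W ν (t.sup fun x => (l x).length) x ≤ un f W ν (l y).length x :=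
          hanti (Finset.le_sup (f := fun x => (l x).length) hy) x
        refine h1.trans (le_trans hxy ?_)
        exact tsub_le_tsub_left (Finset.inf'_le p hy) 1
  · rw [Finset.not_nonempty_iff_eq_empty] at htn
    refine ⟨0, 1, one_ne_zero, le_rfl, fun x => ?_⟩
    have hx : R < ‖x‖ := by
      by_contra h
      have hx' : x ∈ closedBall (0 : ℂ) R := by
        rw [mem_closedBall_zero_iff]; exact not_lt.1 h
      have := ht hx'
      rw [htn] at this
      simp at this
    rw [un_zero_of_mem hνU hstep _ (hWR x hx)]; exact zero_le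

theorem un_mul [IsProbabilityMeasure ν] (hf : Continuous f) (hWm : MeasurableSet W)
    (hνU : ν Uᶜ = 0) (hstep : ∀ z ∈ W, ∀ t ∈ U, f z + t ∈ W) {ℓ : ℕ} {q : ℝ≥0∞}
    (hq : ∀ x, un f W ν ℓ x ≤ q) (m : ℕ) : ∀ x, un f W ν (m + ℓ) x ≤ q * un f W ν m x := by
  induction m with
  | zero =>
    intro x
    rw [zero_add]
    by_cases hx : x ∈ W
    · rw [un_zero_of_mem hνU hstep ℓ hx]; exact zero_le
    · have : un f W ν 0 x = 1 := Set.indicator_of_mem hx _
      rw [this, mul_one]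
      exact hq x
  | succ m ih =>
    intro x
    have e : m + 1 + ℓ = (m + ℓ) + 1 := by ring
    rw [e]
    calc un f W ν (m + ℓ + 1) x = ∫⁻ t, un f W ν (m + ℓ) (f x + t) ∂ν := rfl
      _ ≤ ∫⁻ t, q * un f W ν m (f x + t) ∂ν := lintegral_mono fun t => ih _
      _ = q * ∫⁻ t, un f W ν m (f x + t) ∂ν :=
          lintegral_const_mul _ ((un_meas hf hWm m).comp (measurable_const_add _))

theorem un_pow [IsProbabilityMeasure ν] (hf : Continuous f) (hWm : MeasurableSet W)
    (hνU : ν Uᶜ = 0) (hstep : ∀ z ∈ W, ∀ t ∈ U, f z + t ∈ W) {ℓ : ℕ} {q : ℝ≥0∞}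
    (hq : ∀ x, un f W ν ℓ x ≤ q) (k : ℕ) (x : ℂ) : un f W ν (k * ℓ) x ≤ q ^ k := by
  induction k with
  | zero => simpa using un_le_one 0 x
  | succ k ih =>
    rw [Nat.succ_mul, pow_succ, mul_comm (q ^ k)]
    exact (un_mul hf hWm hνU hstep hq (k * ℓ) x).trans (by gcongr)

/-- the exponential estimate -/
theorem un_exp [IsProbabilityMeasure ν] (hf : Continuous f) (hWo : IsOpen W) (hU : IsOpen U)
    (hνU : ν Uᶜ = 0) (hνo : ∀ V : Set ℂ, IsOpen V → V.Nonempty → V ⊆ U → ν V ≠ 0)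
    (hstep : ∀ z ∈ W, ∀ t ∈ U, f z + t ∈ W) {R : ℝ} (hWR : ∀ z : ℂ, R < ‖z‖ → z ∈ W)
    (hst : ∀ x, ∃ l : List ℂ, (∀ t ∈ l, t ∈ U) ∧ tr f l x ∈ W) :
    ∃ C ρ : ℝ, 0 < C ∧ 0 < ρ ∧ ρ < 1 ∧ ∀ (n : ℕ) (x : ℂ),
      un f W ν n x ≤ ENNReal.ofReal (C * ρ ^ n) := by
  obtain ⟨ℓ₀, p, hp0, hp1, hp⟩ := un_unif (ν := ν) hf hWo hU hνU hνo hstep hWR hst
  have hanti := un_anti (f := f) (W := W) hνU hstep
  -- make the length positive
  set ℓ := ℓ₀ + 1 with hℓ
  have hpℓ : ∀ x, un f W ν ℓ x ≤ 1 - p := fun x => (hanti (Nat.le_succ ℓ₀) x).trans (hp x)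
  have hpt : p ≠ ∞ := ne_top_of_le_ne_top ENNReal.one_ne_top hp1
  set s : ℝ := p.toReal with hs
  have hs0 : 0 < s := ENNReal.toReal_pos hp0 hpt
  have hs1 : s ≤ 1 := by
    have := ENNReal.toReal_mono ENNReal.one_ne_top hp1
    simpa using this
  set q : ℝ := 1 - s / 2 with hq
  have hq0 : 0 < q := by rw [hq]; linarith
  have hq1 : q < 1 := by rw [hq]; linarith
  have hqp : 1 - p ≤ ENNReal.ofReal q := by
    have e : 1 - p = ENNReal.ofReal (1 - s) := by
      rw [ENNReal.ofReal_sub _ hs0.le, ENNReal.ofReal_one, hs, ENNReal.ofReal_toReal hpt]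
    rw [e]
    exact ENNReal.ofReal_le_ofReal (by rw [hq]; linarith)
  set ρ : ℝ := q ^ ((ℓ : ℝ)⁻¹) with hρ
  have hℓ0 : (0 : ℝ) < ℓ := by rw [hℓ]; positivity
  have hρ0 : 0 < ρ := Real.rpow_pos_of_pos hq0 _
  have hρ1 : ρ < 1 := Real.rpow_lt_one hq0.le hq1 (by positivity)
  have hρℓ : ρ ^ ℓ = q := by
    rw [hρ, ← Real.rpow_natCast, ← Real.rpow_mul hq0.le, inv_mul_cancel₀ hℓ0.ne', Real.rpow_one]
  refine ⟨q⁻¹, ρ, inv_pos.2 hq0, hρ0, hρ1, fun n x => ?_⟩
  have h1 : n / ℓ * ℓ ≤ n := Nat.div_mul_le_self n ℓ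
  have h2 : n < (n / ℓ + 1) * ℓ := by
    have := Nat.lt_div_mul_add (a := n) (b := ℓ) (by omega)
    rw [add_mul, one_mul]; exact this
  calc un f W ν n x ≤ un f W ν (n / ℓ * ℓ) x := hanti h1 x
    _ ≤ (1 - p) ^ (n / ℓ) := un_pow hf hWo.measurableSet hνU hstep hpℓ _ x
    _ ≤ (ENNReal.ofReal q) ^ (n / ℓ) := by gcongr
    _ = ENNReal.ofReal (q ^ (n / ℓ)) := (ENNReal.ofReal_pow hq0.le _).symm
    _ ≤ ENNReal.ofReal (q⁻¹ * ρ ^ n) := by
        apply ENNReal.ofReal_le_ofReal
        have h3 : ρ ^ ((n / ℓ + 1) * ℓ) ≤ ρ ^ n := pow_le_pow_of_le_one hρ0.le hρ1.le h2.le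
        have h4 : ρ ^ ((n / ℓ + 1) * ℓ) = q * q ^ (n / ℓ) := by
          rw [mul_comm (n / ℓ + 1), pow_mul, hρℓ, pow_succ]; ring
        rw [h4] at h3
        rw [le_inv_mul_iff₀ hq0]
        exact h3

/-- the recursion computes the probability -/
theorem pi_eq [IsProbabilityMeasure ν] (hf : Continuous f) (hWm : MeasurableSet W) (n : ℕ) (x : ℂ) :
    Measure.pi (fun _ : Fin n => ν) {t | tr f (List.ofFn t) x ∉ W} = un f W ν n x := by
  have hmeas : ∀ n : ℕ, Measurable (fun q : (Fin n → ℂ) × ℂ => tr f (List.ofFn q.1) q.2) := by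
    intro n
    induction n with
    | zero =>
      have : (fun q : (Fin 0 → ℂ) × ℂ => tr f (List.ofFn q.1) q.2) = Prod.snd := by
        funext q; rw [List.ofFn_zero]; rfl
      rw [this]
      exact measurable_snd
    | succ n ih =>
      have : (fun q : (Fin (n + 1) → ℂ) × ℂ => tr f (List.ofFn q.1) q.2) =
          (fun q : (Fin n → ℂ) × ℂ => tr f (List.ofFn q.1) q.2) ∘
            (fun q : (Fin (n + 1) → ℂ) × ℂ => (fun i : Fin n => q.1 i.succ, f q.2 + q.1 0)) := by
        funext q; rw [List.ofFn_succ]; rfl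
      rw [this]
      refine ih.comp (Measurable.prodMk ?_ ?_)
      · exact measurable_pi_lambda _ fun i => (measurable_pi_apply _).comp measurable_fst
      · exact (hf.measurable.comp measurable_snd).add ((measurable_pi_apply 0).comp measurable_fst)
  induction n generalizing x with
  | zero =>
    by_cases hx : x ∈ W
    · have h1 : {t : Fin 0 → ℂ | tr f (List.ofFn t) x ∉ W} = ∅ := by
        ext t
        simp only [mem_ofPred_eq, mem_empty_iff_false, iff_false, not_not]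
        rw [List.ofFn_zero]
        exact hx
      rw [h1, measure_empty]
      exact (Set.indicator_of_notMem (s := Wᶜ) (f := (1 : ℂ → ℝ≥0∞)) (not_not.2 hx)).symm
    · have h1 : {t : Fin 0 → ℂ | tr f (List.ofFn t) x ∉ W} = univ := by
        ext t
        simp only [mem_ofPred_eq, mem_univ, iff_true]
        rw [List.ofFn_zero]
        exact hx
      rw [h1, measure_univ]
      exact (Set.indicator_of_mem (s := Wᶜ) (f := (1 : ℂ → ℝ≥0∞)) hx).symm
  | succ n ih =>
    have hmp := measurePreserving_piFinSuccAbove (fun _ : Fin (n + 1) => ν) 0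
    set S : Set (ℂ × (Fin n → ℂ)) := {q | tr f (List.ofFn q.2) (f x + q.1) ∉ W} with hS
    have hSm : MeasurableSet S := by
      have h1 : Measurable (fun q : ℂ × (Fin n → ℂ) => tr f (List.ofFn q.2) (f x + q.1)) :=
        (hmeas n).comp (measurable_snd.prodMk (measurable_fst.const_add _))
      exact h1 hWm.compl
    have hpre : {t : Fin (n + 1) → ℂ | tr f (List.ofFn t) x ∉ W} =
        (MeasurableEquiv.piFinSuccAbove (fun _ : Fin (n + 1) => ℂ) 0) ⁻¹' S := by
      ext t
      simp only [mem_ofPred_eq, mem_preimage, hS]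
      rw [List.ofFn_succ, tr_cons]
      rfl
    rw [hpre, hmp.measure_preimage hSm.nullMeasurableSet, Measure.prod_apply hSm]
    refine lintegral_congr fun t => ?_
    exact ih (f x + t)

end Pool.Agent.Q77.Rand
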