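import Mathlib
import Pool.Agent.Q77.Rand.Prob

/-! The estimate for the composition. -/

set_option autoImplicit false

open Topology Filter Metric Set MeasureTheory Polynomial
open scoped ENNReal

namespace Pool.Agent.Q77.Rand

/-- growth of a polynomial of degree at least two, with bounded translations -/
theorem growth {p : ℂ[X]} (hp : 2 ≤ p.natDegree) {U : Set ℂ} (hU : Bornology.IsBounded U) :
    ∃ R : ℝ, 0 < R ∧ ∀ z : ℂ, R ≤ ‖z‖ → ∀ t ∈ U, 2 * ‖z‖ ≤ ‖p.eval z + t‖ := by
  have h2 : 0 < p.divX.degree := by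
    rw [← natDegree_pos_iff_degree_pos, natDegree_divX_eq_natDegree_tsub_one]
    omega
  have h3 := tendsto_norm_atTop p.divX h2 (tendsto_norm_cobounded_atTop (E := ℂ))
  obtain ⟨R, -, hR⟩ := (Filter.hasBasis_cobounded_norm.eventually_iff).mp
    (h3.eventually_ge_atTop 4)
  obtain ⟨B, hB⟩ := hU.exists_norm_le
  refine ⟨max 1 (max R (max ‖p.coeff 0‖ B)), lt_of_lt_of_le one_pos (le_max_left _ _),
    fun w hw t ht => ?_⟩
  have hw1 : R ≤ ‖w‖ := (le_max_left _ _).trans ((le_max_right _ _).trans hw)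
  have hw2 : ‖p.coeff 0‖ ≤ ‖w‖ :=
    (le_max_left _ _).trans ((le_max_right _ _).trans ((le_max_right _ _).trans hw))
  have hw3 : B ≤ ‖w‖ :=
    (le_max_right _ _).trans ((le_max_right _ _).trans ((le_max_right _ _).trans hw))
  have h1 : 4 ≤ ‖p.divX.eval w‖ := hR hw1
  have h3 : p.eval w = p.divX.eval w * w + p.coeff 0 := by
    conv_lhs => rw [← divX_mul_X_add p]
    simp
  have h4 : ‖p.divX.eval w * w‖ ≤ ‖p.eval w + t‖ + ‖p.coeff 0‖ + ‖t‖ := by
    have : p.divX.eval w * w = (p.eval w + t) - p.coeff 0 - t := by rw [h3]; ring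
    rw [this]
    refine (norm_sub_le _ _).trans ?_
    gcongr
    exact norm_sub_le _ _
  rw [norm_mul] at h4
  have h5 : 4 * ‖w‖ ≤ ‖p.divX.eval w‖ * ‖w‖ := mul_le_mul_of_nonneg_right h1 (norm_nonneg _)
  have h6 := hB t ht
  linarith

theorem crit_finite {p : ℂ[X]} (hp : 1 ≤ p.natDegree) :
    {z : ℂ | (derivative p).eval z = 0}.Finite := by
  have h : derivative p ≠ 0 := by
    intro h0
    have := derivative_eq_zero.1 h0
    omega
  refine (Finset.finite_toSet (derivative p).roots.toFinset).subset fun z hz => ?_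
  rw [Finset.mem_coe, Multiset.mem_toFinset, mem_roots h]
  exact hz

/-- rotating the coordinates preserves the measure -/
theorem rot_eq {f : ℂ → ℂ} {W : Set ℂ} {ν : Measure ℂ} [IsProbabilityMeasure ν]
    (hf : Continuous f) (hWm : MeasurableSet W) (n : ℕ) (i : ℕ) (hi : i < n) (x : ℂ) :
    Measure.pi (fun _ : Fin n => ν)
      {t | tr f ((List.ofFn t).drop i ++ (List.ofFn t).take i) x ∉ W} = un f W ν n x := by
  rw [← pi_eq hf hWm n x]
  obtain ⟨m, rfl⟩ : ∃ m, n = m + 1 := ⟨n - 1, by omega⟩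
  set e : Fin (m + 1) ≃ Fin (m + 1) := Equiv.addRight (⟨i, hi⟩ : Fin (m + 1)) with he
  have hrot : ∀ t : Fin (m + 1) → ℂ, (List.ofFn t).drop i ++ (List.ofFn t).take i =
      List.ofFn (fun j => t (e j)) := by
    intro t
    rw [← List.rotate_eq_drop_append_take (by simpa using hi.le)]
    apply List.ext_getElem
    · simp
    · intro k h1 h2
      rw [List.getElem_rotate, List.getElem_ofFn, List.getElem_ofFn]
      congr 1
      apply Fin.ext
      simp [he, Fin.val_add]
  have hmp : MeasurePreserving (MeasurableEquiv.piCongrLeft (fun _ : Fin (m + 1) => ℂ) e.symm)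
      (Measure.pi fun _ : Fin (m + 1) => ν) (Measure.pi fun _ : Fin (m + 1) => ν) :=
    measurePreserving_piCongrLeft (fun _ : Fin (m + 1) => ν) e.symm
  have hpre : {t : Fin (m + 1) → ℂ | tr f ((List.ofFn t).drop i ++ (List.ofFn t).take i) x ∉ W} =
      (MeasurableEquiv.piCongrLeft (fun _ : Fin (m + 1) => ℂ) e.symm) ⁻¹'
        {t | tr f (List.ofFn t) x ∉ W} := by
    ext t
    simp only [mem_ofPred_eq, mem_preimage]
    rw [hrot]
    have : (fun j => t (e j)) =
        (MeasurableEquiv.piCongrLeft (fun _ : Fin (m + 1) => ℂ) e.symm) t := by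
      funext j
      obtain ⟨j', rfl⟩ : ∃ j', j = e.symm j' := ⟨e j, by simp⟩
      rw [MeasurableEquiv.piCongrLeft_apply_apply, Equiv.apply_symm_apply]
    rw [this]
  rw [hpre, hmp.measure_preimage_equiv]

/-- the composition of the maps `f + t` -/
noncomputable def rc (f : ℂ[X]) (l : List ℂ) : ℂ[X] := l.foldl (fun T s => (f + C s).comp T) X

theorem rc_eval_aux (f : ℂ[X]) (l : List ℂ) (T : ℂ[X]) (z : ℂ) :
    (l.foldl (fun T s => (f + C s).comp T) T).eval z = tr (fun w => f.eval w) l (T.eval z) := by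
  induction l generalizing T with
  | nil => rfl
  | cons s l ih =>
    rw [List.foldl_cons, ih, tr_cons]
    simp [eval_comp]

theorem rc_eval (f : ℂ[X]) (l : List ℂ) (z : ℂ) :
    (rc f l).eval z = tr (fun w => f.eval w) l z := by
  unfold rc
  rw [rc_eval_aux, eval_X]

/-- **The probability of not being hyperbolic is exponentially small.** -/
theorem main (f : ℂ[X]) (hf : 2 ≤ f.natDegree) {U : Set ℂ} (hUo : IsOpen U) (hUn : U.Nonempty)
    (hUb : Bornology.IsBounded U) (ν : Measure ℂ) [IsProbabilityMeasure ν] (hνU : ν Uᶜ = 0)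
    (hνo : ∀ V : Set ℂ, IsOpen V → V.Nonempty → V ⊆ U → ν V ≠ 0) :
    ∃ C ρ : ℝ, 0 < C ∧ 0 < ρ ∧ ρ < 1 ∧ ∀ n : ℕ,
      Measure.pi (fun _ : Fin n => ν) {t | ¬ ∀ c : ℂ,
        (derivative (rc f (List.ofFn t))).eval c = 0 →
          Good (fun z => (rc f (List.ofFn t)).eval z) c} ≤ ENNReal.ofReal (C * ρ ^ n) := by
  set F : ℂ → ℂ := fun w => f.eval w with hF
  have hFd : Differentiable ℂ F := f.differentiable
  have hFc : Continuous F := hFd.continuous
  obtain ⟨R, hR, hR2⟩ := growth hf hUb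
  have hR2' : ∀ z : ℂ, R ≤ ‖z‖ → ∀ t ∈ U, 2 * ‖z‖ ≤ ‖F z + t‖ := hR2
  obtain ⟨C, ρ, hC, hρ, hρ1, hun⟩ := un_exp (f := F) (W := WW F U R) (ν := ν) hFc
    (WW_open hUo R) hUo hνU hνo (fun z hz t ht => WW_step hR hR2' hz ht)
    (R := R) (fun z hz => Or.inl hz) (fun x => steer hUn R x)
  have hcf := crit_finite (p := f) (by omega)
  set K : Finset ℂ := hcf.toFinset with hK
  -- the union bound
  have hbad : ∀ n : ℕ, Measure.pi (fun _ : Fin n => ν) {t | ¬ ∀ c : ℂ,
        (derivative (rc f (List.ofFn t))).eval c = 0 →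
          Good (fun z => (rc f (List.ofFn t)).eval z) c} ≤
      ENNReal.ofReal (n * K.card * (C * ρ ^ n)) := by
    intro n
    have hsub : {t : Fin n → ℂ | ¬ ∀ c : ℂ,
        (derivative (rc f (List.ofFn t))).eval c = 0 →
          Good (fun z => (rc f (List.ofFn t)).eval z) c} ⊆
        (⋃ i : Fin n, {t : Fin n → ℂ | t i ∈ Uᶜ}) ∪
        ⋃ q ∈ (Finset.range n ×ˢ K : Finset (ℕ × ℂ)), {t : Fin n → ℂ |
          tr F ((List.ofFn t).drop q.1 ++ (List.ofFn t).take q.1) q.2 ∉ WW F U R} := by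
      intro t ht
      by_contra hnot
      rw [mem_union, not_or] at hnot
      obtain ⟨h1, h2⟩ := hnot
      apply ht
      have hl : ∀ s ∈ List.ofFn t, s ∈ U := by
        intro s hs
        rw [List.mem_ofFn'] at hs
        obtain ⟨i, rfl⟩ := hs
        by_contra hsU
        exact h1 (mem_iUnion.2 ⟨i, hsU⟩)
      have h3 : ∀ i < (List.ofFn t).length, ∀ c, deriv F c = 0 →
          tr F ((List.ofFn t).drop i ++ (List.ofFn t).take i) c ∈ WW F U R := by
        intro i hi c hc
        by_contra hW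
        apply h2
        rw [mem_iUnion₂]
        refine ⟨(i, c), ?_, hW⟩
        rw [Finset.mem_product, Finset.mem_range, hK, Set.Finite.mem_toFinset]
        refine ⟨by simpa using hi, ?_⟩
        show (derivative f).eval c = 0
        rw [← Polynomial.deriv]
        exact hc
      have h4 := det hFd hUo hR hR2' (List.ofFn t) hl h3
      have e1 : (fun z => (rc f (List.ofFn t)).eval z) = tr F (List.ofFn t) := by
        funext z
        exact rc_eval f _ z
      intro c hc
      rw [e1]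
      apply h4 c
      rw [← e1, Polynomial.deriv]
      exact hc
    have hnull : Measure.pi (fun _ : Fin n => ν) (⋃ i : Fin n, {t : Fin n → ℂ | t i ∈ Uᶜ}) = 0 := by
      rw [measure_iUnion_null_iff]
      intro i
      exact Measure.pi_eval_preimage_null _ hνU
    calc _ ≤ Measure.pi (fun _ : Fin n => ν) (⋃ i : Fin n, {t : Fin n → ℂ | t i ∈ Uᶜ}) +
          Measure.pi (fun _ : Fin n => ν)
          (⋃ q ∈ (Finset.range n ×ˢ K : Finset (ℕ × ℂ)), {t : Fin n → ℂ |
            tr F ((List.ofFn t).drop q.1 ++ (List.ofFn t).take q.1) q.2 ∉ WW F U R}) :=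
          (measure_mono hsub).trans (measure_union_le _ _)
      _ ≤ 0 + ∑ q ∈ (Finset.range n ×ˢ K : Finset (ℕ × ℂ)), Measure.pi (fun _ : Fin n => ν)
          {t : Fin n → ℂ |
            tr F ((List.ofFn t).drop q.1 ++ (List.ofFn t).take q.1) q.2 ∉ WW F U R} := by
          rw [hnull]
          gcongr
          exact measure_biUnion_finset_le _ _
      _ ≤ 0 + ∑ q ∈ (Finset.range n ×ˢ K : Finset (ℕ × ℂ)), ENNReal.ofReal (C * ρ ^ n) := by
          gcongr with q hq
          rw [Finset.mem_product, Finset.mem_range] at hq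
          rw [rot_eq hFc (WW_open hUo R).measurableSet n q.1 hq.1 q.2]
          exact hun n q.2
      _ = ENNReal.ofReal (n * K.card * (C * ρ ^ n)) := by
          rw [zero_add, Finset.sum_const, Finset.card_product, Finset.card_range, nsmul_eq_mul,
            ← Nat.cast_mul, ENNReal.ofReal_mul (p := ((n * K.card : ℕ) : ℝ)) (by positivity),
            ENNReal.ofReal_natCast]
  -- absorb the linear factor
  set σ : ℝ := Real.sqrt ρ with hσ
  have hσ0 : 0 < σ := Real.sqrt_pos.2 hρ
  have hσ1 : σ < 1 := by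
    rw [hσ, Real.sqrt_lt' one_pos]; simpa using hρ1
  have hσ2 : σ * σ = ρ := Real.mul_self_sqrt hρ.le
  have hlim : Tendsto (fun n : ℕ => (n : ℝ) * σ ^ n) atTop (𝓝 0) :=
    tendsto_self_mul_const_pow_of_lt_one hσ0.le hσ1
  obtain ⟨B, hB⟩ := hlim.bddAbove_range
  have hB0 : ∀ n : ℕ, (n : ℝ) * σ ^ n ≤ B := fun n => hB ⟨n, rfl⟩
  have hBn : 0 ≤ B := by simpa using hB0 0
  refine ⟨(B + 1) * (K.card + 1) * C, σ, by positivity, hσ0, hσ1, fun n => (hbad n).trans ?_⟩
  apply ENNReal.ofReal_le_ofReal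
  have h1 : ρ ^ n = σ ^ n * σ ^ n := by rw [← mul_pow, hσ2]
  calc (n : ℝ) * K.card * (C * ρ ^ n) = (n * σ ^ n) * K.card * C * σ ^ n := by rw [h1]; ring
    _ ≤ (B + 1) * (K.card + 1) * C * σ ^ n := by
        gcongr
        · linarith [hB0 n]
        · linarith

end Pool.Agent.Q77.Rand

namespace Pool.Agent.Q77.Rand

/-- The first `n` coordinates of the infinite product are distributed as the finite product. -/
theorem infinitePi_first (ν : Measure ℂ) [IsProbabilityMeasure ν] (n : ℕ) :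
    (Measure.infinitePi fun _ : ℕ => ν).map (fun t (i : Fin n) => t i) =
      Measure.pi fun _ : Fin n => ν := by
  symm
  refine Measure.pi_eq fun s hs => ?_
  have hm : Measurable (fun (t : ℕ → ℂ) (i : Fin n) => t i) :=
    measurable_pi_lambda _ fun i => measurable_pi_apply _
  rw [Measure.map_apply hm (MeasurableSet.univ_pi hs)]
  set S : ℕ → Set ℂ := fun k => if h : k < n then s ⟨k, h⟩ else univ with hS
  have hpre : (fun (t : ℕ → ℂ) (i : Fin n) => t i) ⁻¹' (Set.univ.pi s) =
      Set.pi (Finset.range n : Finset ℕ) S := by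
    ext t
    simp only [mem_preimage, Set.mem_pi, mem_univ, true_imp_iff, Finset.coe_range, mem_Iio]
    constructor
    · intro h k hk
      rw [hS]
      simp only [hk, dite_true]
      exact h ⟨k, hk⟩
    · intro h i
      have := h i i.2
      rw [hS] at this
      simpa using this
  rw [hpre, Measure.infinitePi_pi (μ := fun _ : ℕ => ν) (s := Finset.range n) (t := S),
    Finset.prod_range]
  · refine Finset.prod_congr rfl fun i _ => ?_
    simp [hS]
  · intro k hk
    have hk' : k < n := Finset.mem_range.1 hk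
    rw [hS]
    simp only [hk', dite_true]
    exact hs _

/-- Borel–Cantelli. -/
theorem ae_main (ν : Measure ℂ) [IsProbabilityMeasure ν] (P : (n : ℕ) → (Fin n → ℂ) → Prop)
    {C ρ : ℝ} (hC : 0 < C) (hρ : 0 < ρ) (hρ1 : ρ < 1)
    (h : ∀ n : ℕ, Measure.pi (fun _ : Fin n => ν) {t | ¬ P n t} ≤ ENNReal.ofReal (C * ρ ^ n)) :
    ∀ᵐ t ∂(Measure.infinitePi fun _ : ℕ => ν), ∀ᶠ n : ℕ in atTop, P n (fun i => t i) := by
  have h1 : ∀ n : ℕ, (Measure.infinitePi fun _ : ℕ => ν) {t | ¬ P n (fun i => t i)} ≤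
      ENNReal.ofReal (C * ρ ^ n) := by
    intro n
    have hm : Measurable (fun (t : ℕ → ℂ) (i : Fin n) => t i) :=
      measurable_pi_lambda _ fun i => measurable_pi_apply _
    calc (Measure.infinitePi fun _ : ℕ => ν) {t | ¬ P n (fun i => t i)} ≤
        ((Measure.infinitePi fun _ : ℕ => ν).map (fun t (i : Fin n) => t i)) {t | ¬ P n t} :=
          Measure.le_map_apply hm.aemeasurable _
      _ ≤ _ := by rw [infinitePi_first]; exact h n
  have h2 : ∑' n : ℕ, (Measure.infinitePi fun _ : ℕ => ν) {t | ¬ P n (fun i => t i)} ≠ ∞ := by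
    refine ne_top_of_le_ne_top ?_ (ENNReal.tsum_le_tsum h1)
    have hs : Summable fun n : ℕ => C * ρ ^ n :=
      (summable_geometric_of_lt_one hρ.le hρ1).mul_left C
    rw [← ENNReal.ofReal_tsum_of_nonneg (fun n => by positivity) hs]
    exact ENNReal.ofReal_ne_top
  have h3 := ae_eventually_notMem h2
  filter_upwards [h3] with t ht
  filter_upwards [ht] with n hn
  by_contra hP
  exact hn hP

end Pool.Agent.Q77.Rand
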